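import Mathlib

/-!
# Locally nilpotent radicals of Engel Lie algebras and of their multiplication algebras

Over every field `F` there are an Engel (even locally nilpotent) Lie algebra `A` and `a ∈ L(A)` such
that `R_a ∉ L(A*)`.
-/

set_option autoImplicit false

universe u

namespace Pool.Agent.Results.MP_2c0ed3_al.RadicalFails

section Defs

variable (F : Type*) {A : Type*} [Field F] [LieRing A] [LieAlgebra F A]

/-- `A` is Engel: for all `x, y` there is `n ≥ 1` with `[...[[y, x], x], ..., x] = 0`
(`n` brackets); `n` may depend on `x` and `y`. -/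
def IsEngel (A : Type*) [LieRing A] : Prop :=
  ∀ x y : A, ∃ n : ℕ, 1 ≤ n ∧ (fun z => ⁅z, x⁆)^[n] y = 0

/-- An ideal `I` of the Lie algebra `A` is locally nilpotent: every subalgebra generated by finitely
many elements of `I` is nilpotent. -/
def LieLocNilp (I : LieIdeal F A) : Prop :=
  ∀ s : Set A, s.Finite → s ⊆ I → LieRing.IsNilpotent (LieSubalgebra.lieSpan F A s)

/-- The locally nilpotent radical `L(A)`: the sum of all locally nilpotent ideals. -/
def LieRad (A : Type*) [LieRing A] [LieAlgebra F A] : LieIdeal F A :=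
  sSup {I | LieLocNilp F I}

/-- Right multiplication `R_a : x ↦ [x, a]`. -/
def R (a : A) : Module.End F A where
  toFun x := ⁅x, a⁆
  map_add' x y := add_lie x y a
  map_smul' c x := smul_lie c x a

/-- The multiplication algebra `A*`: the associative subalgebra (without adjoined identity) of
`End_F(A)` generated by all `R_a`. -/
def MulAlg (A : Type*) [LieRing A] [LieAlgebra F A] : NonUnitalSubalgebra F (Module.End F A) :=
  NonUnitalAlgebra.adjoin F (Set.range (R F))

/-- `J` is a two-sided ideal of the subalgebra `S` of `End_F(A)`. -/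
def IsIdealOf (S : NonUnitalSubalgebra F (Module.End F A)) (J : Submodule F (Module.End F A)) :
    Prop :=
  J ≤ S.toSubmodule ∧ ∀ f ∈ J, ∀ g ∈ S, f * g ∈ J ∧ g * f ∈ J

/-- `J` is locally nilpotent: for every finite subset `s` of `J` the subalgebra generated by `s` is
nilpotent, i.e. for some `n` all products of `n` of its elements vanish. -/
def AssocLocNilp (J : Submodule F (Module.End F A)) : Prop :=
  ∀ s : Set (Module.End F A), s.Finite → s ⊆ J → ∃ n : ℕ,
    ∀ l : List (Module.End F A), l.length = n → (∀ f ∈ l, f ∈ NonUnitalAlgebra.adjoin F s) →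
      l.prod = 0

/-- The locally nilpotent radical of `S`: the sum of all locally nilpotent ideals of `S`. -/
def AssocRad (S : NonUnitalSubalgebra F (Module.End F A)) : Submodule F (Module.End F A) :=
  sSup {J | IsIdealOf F S J ∧ AssocLocNilp F J}

end Defs

/-! ### The example -/

open Polynomial

/-- The example: `F[X] ⊕ F c`, where `F[X]` is an abelian ideal and `[p, c] = D p`, where
`D p = (p - p(0)) / X`. -/
structure Ex (F : Type u) [Field F] : Type u where
  /-- the part in the abelian ideal -/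
  p : F[X]
  /-- the coefficient of `c` -/
  t : F

namespace Ex

variable {F : Type u} [Field F]

@[ext] lemma ext' {x y : Ex F} (h : x.p = y.p) (h' : x.t = y.t) : x = y := by
  cases x; cases y; simp_all

/-- the linear structure is transported from the product -/
def equiv : Ex F ≃ F[X] × F where
  toFun x := (x.p, x.t)
  invFun x := ⟨x.1, x.2⟩
  left_inv _ := rfl
  right_inv _ := rfl

noncomputable instance : AddCommGroup (Ex F) := (equiv (F := F)).addCommGroup

noncomputable instance : Module F (Ex F) := (equiv (F := F)).module F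

@[simp] lemma zero_p : (0 : Ex F).p = 0 := rfl
@[simp] lemma zero_t : (0 : Ex F).t = 0 := rfl
@[simp] lemma add_p (x y : Ex F) : (x + y).p = x.p + y.p := rfl
@[simp] lemma add_t (x y : Ex F) : (x + y).t = x.t + y.t := rfl
@[simp] lemma neg_p (x : Ex F) : (-x).p = -x.p := rfl
@[simp] lemma neg_t (x : Ex F) : (-x).t = -x.t := rfl
@[simp] lemma smul_p (c : F) (x : Ex F) : (c • x).p = c • x.p := rfl
@[simp] lemma smul_t (c : F) (x : Ex F) : (c • x).t = c * x.t := rfl

/-- the operator `D` -/
noncomputable def D : F[X] →ₗ[F] F[X] where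
  toFun := divX
  map_add' := fun p q => by ext n; simp [coeff_divX]
  map_smul' := fun c p => by ext n; simp [coeff_divX]

lemma coeff_D (p : F[X]) (n : ℕ) : (D p).coeff n = p.coeff (n + 1) := coeff_divX

noncomputable instance : Bracket (Ex F) (Ex F) := ⟨fun x y => ⟨y.t • D x.p - x.t • D y.p, 0⟩⟩

@[simp] lemma lie_p (x y : Ex F) : ⁅x, y⁆.p = y.t • D x.p - x.t • D y.p := rfl
@[simp] lemma lie_t (x y : Ex F) : ⁅x, y⁆.t = 0 := rfl

noncomputable instance : LieRing (Ex F) where
  add_lie x y z := by
    ext1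
    · simp only [lie_p, add_p, add_t, map_add, smul_add, add_smul]; abel
    · simp
  lie_add x y z := by
    ext1
    · simp only [lie_p, add_p, add_t, map_add, smul_add, add_smul]; abel
    · simp
  lie_self x := by
    ext1
    · simp
    · simp
  leibniz_lie x y z := by
    ext1
    · simp only [lie_p, lie_t, add_p, map_sub, map_smul, zero_smul, smul_sub, smul_smul]
      simp only [mul_comm]
      abel
    · simp

noncomputable instance : LieAlgebra F (Ex F) where
  lie_smul c x y := by
    ext1
    · simp only [lie_p, smul_p, smul_t, map_smul, smul_sub, smul_smul, mul_comm]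
    · simp

lemma coeff_D_pow (n : ℕ) (p : F[X]) (i : ℕ) : ((D ^ n) p).coeff i = p.coeff (i + n) := by
  induction n generalizing p with
  | zero => simp
  | succ n ih =>
    rw [pow_succ, Module.End.mul_apply, ih, coeff_D]
    congr 1

lemma iterate_lie (x z : Ex F) (hz : z.t = 0) (n : ℕ) :
    (fun z => ⁅z, x⁆)^[n] z = ⟨x.t ^ n • (D ^ n) z.p, 0⟩ := by
  induction n with
  | zero => ext1 <;> simp [hz]
  | succ n ih =>
    rw [Function.iterate_succ_apply', ih]
    ext1
    · simp only [lie_p, zero_smul, sub_zero, map_smul, smul_smul]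
      rw [pow_succ' x.t, pow_succ' (D (F := F)), Module.End.mul_apply]
    · simp

lemma engel : IsEngel (Ex F) := by
  intro x y
  refine ⟨(⁅y, x⁆ : Ex F).p.natDegree + 1 + 1, by omega, ?_⟩
  rw [Function.iterate_succ_apply, iterate_lie x _ rfl]
  ext1
  · have h : ((D (F := F)) ^ ((⁅y, x⁆ : Ex F).p.natDegree + 1)) (⁅y, x⁆ : Ex F).p = 0 := by
      ext i
      rw [coeff_D_pow, coeff_zero]
      exact coeff_eq_zero_of_natDegree_lt (by omega)
    simp only [h, smul_zero, zero_p]
  · simp

/-- the Lie subalgebra of all elements with `p` of degree `< N` -/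
noncomputable def bdd (N : ℕ) : LieSubalgebra F (Ex F) where
  carrier := {x | ∀ i, N ≤ i → x.p.coeff i = 0}
  add_mem' := by
    intro x y hx hy i hi
    simp [hx i hi, hy i hi]
  zero_mem' := by
    intro i _
    simp
  smul_mem' := by
    intro c x hx i hi
    simp [hx i hi]
  lie_mem' := by
    intro x y hx hy i hi
    simp only [lie_p, coeff_sub, coeff_smul, coeff_D, hx (i + 1) (by omega), hy (i + 1) (by omega),
      smul_zero, sub_zero]

lemma lcs_bound (H : LieSubalgebra F (Ex F)) (N : ℕ) (hH : H ≤ bdd N) (k : ℕ) :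
    ∀ x : H, x ∈ LieModule.lowerCentralSeries F H H (k + 1) →
      (x : Ex F).t = 0 ∧ ∀ i, N ≤ i + k → (x : Ex F).p.coeff i = 0 := by
  induction k with
  | zero =>
    intro x hx
    refine ⟨?_, fun i hi => hH x.2 i (by omega)⟩
    rw [LieModule.lowerCentralSeries_succ, ← LieSubmodule.mem_toSubmodule,
      LieSubmodule.lieIdeal_oper_eq_linear_span'] at hx
    induction hx using Submodule.span_induction with
    | mem x h =>
      obtain ⟨a, -, b, -, rfl⟩ := h
      rfl
    | zero => rfl
    | add x y _ _ hx hy =>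
      change (x : Ex F).t + (y : Ex F).t = 0
      rw [hx, hy, add_zero]
    | smul c x _ hx =>
      change c * (x : Ex F).t = 0
      rw [hx, mul_zero]
  | succ k ih =>
    intro x hx
    rw [LieModule.lowerCentralSeries_succ, ← LieSubmodule.mem_toSubmodule,
      LieSubmodule.lieIdeal_oper_eq_linear_span'] at hx
    induction hx using Submodule.span_induction with
    | mem x h =>
      obtain ⟨a, -, b, hb, rfl⟩ := h
      obtain ⟨h1, h2⟩ := ih b hb
      refine ⟨rfl, fun i hi => ?_⟩
      change (⁅(a : Ex F), (b : Ex F)⁆ : Ex F).p.coeff i = 0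
      rw [lie_p, h1, zero_smul, zero_sub, coeff_neg, coeff_smul, coeff_D, h2 (i + 1) (by omega),
        smul_zero, neg_zero]
    | zero => exact ⟨rfl, fun i _ => rfl⟩
    | add x y _ _ hx hy =>
      refine ⟨?_, fun i hi => ?_⟩
      · change (x : Ex F).t + (y : Ex F).t = 0
        rw [hx.1, hy.1, add_zero]
      · change ((x : Ex F).p + (y : Ex F).p).coeff i = 0
        rw [coeff_add, hx.2 i hi, hy.2 i hi, add_zero]
    | smul c x _ hx =>
      refine ⟨?_, fun i hi => ?_⟩
      · change c * (x : Ex F).t = 0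
        rw [hx.1, mul_zero]
      · change (c • (x : Ex F).p).coeff i = 0
        rw [coeff_smul, hx.2 i hi, smul_zero]

lemma locNilp : LieLocNilp F (⊤ : LieIdeal F (Ex F)) := by
  intro s hs _
  obtain ⟨N, hN⟩ : ∃ N, ∀ x ∈ s, x.p.natDegree < N := by
    obtain ⟨N, hN⟩ := (hs.image fun x => x.p.natDegree).bddAbove
    exact ⟨N + 1, fun x hx => Nat.lt_succ_of_le (hN ⟨x, hx, rfl⟩)⟩
  have hH : LieSubalgebra.lieSpan F (Ex F) s ≤ bdd N := by
    rw [LieSubalgebra.lieSpan_le]
    intro x hx i hi
    exact coeff_eq_zero_of_natDegree_lt (lt_of_lt_of_le (hN x hx) hi)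
  rw [LieRing.IsNilpotent, LieModule.isNilpotent_iff F]
  refine ⟨N + 1, ?_⟩
  rw [LieSubmodule.eq_bot_iff]
  intro x hx
  obtain ⟨h1, h2⟩ := lcs_bound _ N hH N x hx
  apply Subtype.ext
  ext1
  · ext i
    rw [h2 i (by omega)]
    rfl
  · exact h1

/-- every element of the multiplication algebra acts on the abelian ideal as a polynomial in `D` -/
lemma mulAlg_acts (f : Module.End F (Ex F)) (hf : f ∈ MulAlg F (Ex F)) :
    ∃ q : F[X], ∀ p : F[X], f ⟨p, 0⟩ = ⟨aeval D q p, 0⟩ := by
  refine NonUnitalAlgebra.adjoin_induction (p := fun f _ => ∃ q : F[X], ∀ p : F[X],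
    f ⟨p, 0⟩ = ⟨aeval D q p, 0⟩) ?_ ?_ ?_ ?_ ?_ hf
  · rintro _ ⟨a, rfl⟩
    refine ⟨C a.t * X, fun p => ?_⟩
    ext1
    · change a.t • D p - (0 : F) • D a.p = _
      simp [Algebra.smul_def]
    · rfl
  · rintro f g _ _ ⟨q, hq⟩ ⟨r, hr⟩
    refine ⟨q + r, fun p => ?_⟩
    rw [LinearMap.add_apply, hq, hr]
    ext1 <;> simp
  · exact ⟨0, fun p => by ext1 <;> simp⟩
  · rintro f g _ _ ⟨q, hq⟩ ⟨r, hr⟩
    refine ⟨q * r, fun p => ?_⟩
    rw [Module.End.mul_apply, hr, hq, map_mul, Module.End.mul_apply]
  · rintro c f _ ⟨q, hq⟩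
    refine ⟨c • q, fun p => ?_⟩
    rw [LinearMap.smul_apply, hq]
    ext1 <;> simp

lemma D_transc (q : F[X]) (h : aeval (D (F := F)) q = 0) : q = 0 := by
  ext k
  have h1 : ((aeval (D (F := F)) q) (X ^ k)).coeff 0 = q.coeff k := by
    rw [aeval_eq_sum_range, LinearMap.sum_apply, finsetSum_coeff]
    simp only [LinearMap.smul_apply, coeff_smul, coeff_D_pow, coeff_X_pow, zero_add, smul_eq_mul,
      mul_ite, mul_one, mul_zero]
    rw [Finset.sum_ite_eq']
    split_ifs with hk
    · rfl
    · rw [Finset.mem_range, not_lt] at hk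
      exact (coeff_eq_zero_of_natDegree_lt (by omega)).symm
  rw [← h1, h]
  simp

/-- the endomorphisms that vanish on the abelian ideal -/
noncomputable def killers : Submodule F (Module.End F (Ex F)) where
  carrier := {f | ∀ p : F[X], f ⟨p, 0⟩ = 0}
  add_mem' := by
    intro f g hf hg p
    rw [LinearMap.add_apply, hf, hg, add_zero]
  zero_mem' := fun p => rfl
  smul_mem' := by
    intro c f hf p
    rw [LinearMap.smul_apply, hf, smul_zero]

lemma rad_le : AssocRad F (MulAlg F (Ex F)) ≤ killers := by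
  refine sSup_le ?_
  rintro J ⟨⟨hJ, -⟩, hnil⟩ f hf
  obtain ⟨q, hq⟩ := mulAlg_acts f (hJ hf)
  obtain ⟨n, hn⟩ := hnil {f} (Set.finite_singleton f) (Set.singleton_subset_iff.2 hf)
  have h1 := hn (List.replicate n f) (List.length_replicate) fun g hg => by
    rw [List.eq_of_mem_replicate hg]
    exact NonUnitalAlgebra.subset_adjoin F rfl
  rw [List.prod_replicate] at h1
  have h2 : ∀ (m : ℕ) (p : F[X]), (f ^ m) ⟨p, 0⟩ = ⟨((aeval D q) ^ m) p, 0⟩ := by
    intro m
    induction m with
    | zero => intro p; rfl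
    | succ m ih =>
      intro p
      rw [pow_succ, Module.End.mul_apply, hq, ih, pow_succ, Module.End.mul_apply]
  have h3 : q = 0 := by
    have h4 : aeval (D (F := F)) (q ^ n) = 0 := by
      refine LinearMap.ext fun p => ?_
      rw [map_pow]
      have h5 := h2 n p
      rw [h1] at h5
      exact (congrArg Ex.p h5).symm
    by_contra h6
    exact pow_ne_zero n h6 (D_transc _ h4)
  intro p
  rw [hq, h3]
  ext1 <;> simp

/-- the element `c` -/
noncomputable def c : Ex F := ⟨0, 1⟩

lemma c_mem : c ∈ LieRad F (Ex F) := by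
  have h : (⊤ : LieIdeal F (Ex F)) ≤ LieRad F (Ex F) := le_sSup locNilp
  exact h trivial

lemma R_c_not_mem : R F (c (F := F)) ∉ AssocRad F (MulAlg F (Ex F)) := by
  intro h
  have h1 := rad_le h (X : F[X])
  have h2 := congrArg (fun x : Ex F => x.p.coeff 0) h1
  change ((1 : F) • D (X : F[X]) - (0 : F) • D 0).coeff 0 = 0 at h2
  rw [one_smul, zero_smul, sub_zero, coeff_D, coeff_X] at h2
  simp at h2

end Ex

/-- Over every field `F` there are an Engel Lie algebra `A` and `a ∈ A` with `a ∈ L(A)` but
`R_a ∉ L(A*)`. Here `A` is even locally nilpotent, i.e. `L(A) = A`. -/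
theorem result (F : Type u) [Field F] :
    ∃ (A : Type u) (_ : LieRing A) (_ : LieAlgebra F A) (a : A),
      IsEngel A ∧ LieRad F A = ⊤ ∧ a ∈ LieRad F A ∧ R F a ∉ AssocRad F (MulAlg F A) :=
  ⟨Ex F, inferInstance, inferInstance, Ex.c, Ex.engel, top_le_iff.1 (le_sSup Ex.locNilp),
    Ex.c_mem, Ex.R_c_not_mem⟩

end Pool.Agent.Results.MP_2c0ed3_al.RadicalFails
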